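import Pool.Agent.Helper67.DO.StmtsD

set_option autoImplicit false

/-!
# D11: (M3) for the smoothed cochains
-/

namespace Pool.Agent.Helper67.DO

open scoped BigOperators Real
open MeasureTheory

noncomputable section

/-! ## weights -/

theorem d11_pull_hb {n : ℕ} {ρ s M s0 : ℝ} (hI : Inv n ρ s M) (hs : s0 < s) {K : ℝ}
    {Φ v : ℝ → ℝ} (hΦ : Φ ∈ AA n) (hv : v ∈ VV n K) :
    HB s0 (pull ρ Φ v) ∧ ∀ z ∈ St s0, ‖pull ρ Φ v z‖ ≤ M * K := by
  have hρ : 0 < ρ := lt_of_lt_of_le hI.pos.1 hI.pos.2.1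
  have hsub : ∀ z ∈ St s0, z ∈ St s := fun z hz => lt_trans (show |z.im| < s0 from hz) hs
  have hsub2 : ∀ z ∈ St ρ, z ∈ St (2 * ρ) := fun z hz =>
    show |z.im| < 2 * ρ from lt_trans (show |z.im| < ρ from hz) (by linarith)
  have hc : ∀ z ∈ St s0, cinv ρ Φ z ∈ St (2 * ρ) := fun z hz =>
    hsub2 _ (hI.inv Φ hΦ z (hsub z hz)).1
  have hb : ∀ z ∈ St s0, ‖pull ρ Φ v z‖ ≤ M * K := fun z hz => (hI.vbd K v hv _ (hc z hz)).2
  refine ⟨⟨?_, ?_, ⟨M * K, hb⟩⟩, hb⟩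
  · exact (hI.vhol K v hv).comp ((hI.invhol Φ hΦ).mono hsub) hc
  · intro z hz
    unfold pull
    rw [(hI.inv Φ hΦ z (hsub z hz)).2.2]
    exact (hI.vbd K v hv _ (hc z hz)).1

theorem d11_hb_shift {s0 : ℝ} {κ : ℂ → ℂ} (h : HB s0 κ) (c : ℝ) :
    HB s0 (fun z => κ (z - c)) := by
  have hm : ∀ z ∈ St s0, z - (c : ℂ) ∈ St s0 := by
    intro z hz
    show |(z - (c : ℂ)).im| < s0
    have : (z - (c : ℂ)).im = z.im := by simp
    rw [this]
    exact hz
  refine ⟨?_, ?_, ?_⟩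
  · exact h.hol.comp ((differentiable_id.sub_const _).differentiableOn) hm
  · intro z hz
    have := h.per (z - c) (hm z hz)
    rw [← this]
    congr 1
    ring
  · obtain ⟨B, hB⟩ := h.bdd
    exact ⟨B, fun z hz => hB _ (hm z hz)⟩

instance d11_prob {Ω : Type} [MeasurableSpace Ω] (P : Measure Ω) [IsProbabilityMeasure P] :
    IsProbabilityMeasure (PP P) := by
  have : IsProbabilityMeasure (volume.restrict (Set.Icc (0 : ℝ) 1)) :=
    ⟨by simp [Measure.restrict_apply]⟩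
  unfold PP
  infer_instance

theorem d11_ww {s0 : ℝ} {Ω : Type} [TopologicalSpace Ω] [MeasurableSpace Ω] {P : Measure Ω}
    [IsProbabilityMeasure P] {η : Ω → ℂ → ℂ} {w : Ω → (ℂ → ℂ) → ℂ} {Cw : ℝ}
    (h : SMD s0 Ω P η w Cw) {κ : ℂ → ℂ} (hκ : HB s0 κ) {B : ℝ} (hB : ∀ z ∈ St s0, ‖κ z‖ ≤ B) :
    Integrable (fun ω => ww w ω κ) (PP P) ∧ ∫ ω, ‖ww w ω κ‖ ∂(PP P) ≤ Cw * B := by
  have : IsProbabilityMeasure (volume.restrict (Set.Icc (0 : ℝ) 1)) :=
    ⟨by simp [Measure.restrict_apply]⟩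
  have hmeas : Measurable (fun ω : Ω × ℝ => ww w ω κ) := h.meas κ hκ
  have hsh : ∀ c : ℝ, ∀ z ∈ St s0, ‖κ (z - c)‖ ≤ B := by
    intro c z hz
    apply hB
    show |(z - (c : ℂ)).im| < s0
    have : (z - (c : ℂ)).im = z.im := by simp
    rw [this]
    exact hz
  have hbd : ∀ c : ℝ, ∫ ω, ‖ww w (ω, c) κ‖ ∂P ≤ Cw * B := fun c =>
    h.bdd _ B (d11_hb_shift hκ c) (hsh c)
  have hnn : ∀ c : ℝ, 0 ≤ ∫ ω, ‖ww w (ω, c) κ‖ ∂P := fun c =>
    integral_nonneg fun ω => norm_nonneg _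
  have hint2 : Integrable (fun c : ℝ => ∫ ω, ‖ww w (ω, c) κ‖ ∂P)
      (volume.restrict (Set.Icc (0 : ℝ) 1)) := by
    refine Integrable.of_bound (C := Cw * B) ?_ ?_
    · have h1 : Measurable (fun q : ℝ × Ω => ‖ww w (q.2, q.1) κ‖) :=
        hmeas.norm.comp measurable_swap
      exact (h1.aestronglyMeasurable
        (μ := (volume.restrict (Set.Icc (0 : ℝ) 1)).prod P)).integral_prod_right'
    · refine Filter.Eventually.of_forall fun c => ?_
      rw [Real.norm_eq_abs, abs_of_nonneg (hnn c)]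
      exact hbd c
  have hint : Integrable (fun ω => ww w ω κ) (PP P) := by
    unfold PP
    rw [integrable_prod_iff' hmeas.aestronglyMeasurable]
    refine ⟨Filter.Eventually.of_forall fun c => ?_, hint2⟩
    exact h.int _ (d11_hb_shift hκ c)
  refine ⟨hint, ?_⟩
  have e : ∫ ω, ‖ww w ω κ‖ ∂(PP P)
      = ∫ c in Set.Icc (0 : ℝ) 1, ∫ ω, ‖ww w (ω, c) κ‖ ∂P := by
    unfold PP at hint ⊢
    exact integral_prod_symm _ hint.norm
  rw [e]
  calc ∫ c in Set.Icc (0 : ℝ) 1, ∫ ω, ‖ww w (ω, c) κ‖ ∂P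
      ≤ ∫ c in Set.Icc (0 : ℝ) 1, Cw * B := integral_mono hint2 (integrable_const _) hbd
    _ = Cw * B := by simp

/-! ## test functions -/

/-- test function -/
def d11_tf {K : ℕ} (x : Fin K → ℝ) (m : Fin K → ℤ) (Φ : ℝ → ℝ) : ℂ :=
  Complex.exp (2 * π * Complex.I * ∑ k, (m k : ℂ) * (Φ (x k) : ℂ))

theorem d11_tf_norm {K : ℕ} (x : Fin K → ℝ) (m : Fin K → ℤ) (Φ : ℝ → ℝ) :
    ‖d11_tf x m Φ‖ = 1 := by
  unfold d11_tf
  have e : 2 * π * Complex.I * ∑ k, (m k : ℂ) * (Φ (x k) : ℂ)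
      = ((2 * π * ∑ k, (m k : ℝ) * Φ (x k) : ℝ) : ℂ) * Complex.I := by
    push_cast
    ring
  rw [e, Complex.norm_exp_ofReal_mul_I]

theorem d11_gg_cont {s0 : ℝ} (hs0 : 0 < s0) {Ω : Type} [TopologicalSpace Ω] [MeasurableSpace Ω]
    {P : Measure Ω} {η : Ω → ℂ → ℂ} {w : Ω → (ℂ → ℂ) → ℂ} {Cw : ℝ}
    (h : SMD s0 Ω P η w Cw) (Φ : ℝ → ℝ) (x : ℝ) :
    Continuous (fun ω : Ω × ℝ => gg η ω Φ x) := by
  unfold gg
  refine Complex.continuous_re.comp ?_
  have h1 : Continuous (fun ω : Ω × ℝ => ((ω.1, ((Φ x + ω.2 : ℝ) : ℂ)) : Ω × ℂ)) := by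
    fun_prop
  refine h.cont.comp_continuous h1 ?_
  intro ω
  refine ⟨Set.mem_univ _, ?_⟩
  show |((Φ x + ω.2 : ℝ) : ℂ).im| < s0 / 4
  rw [Complex.ofReal_im, abs_zero]
  positivity

theorem d11_tf_cont {s0 : ℝ} (hs0 : 0 < s0) {Ω : Type} [TopologicalSpace Ω] [MeasurableSpace Ω]
    {P : Measure Ω} {η : Ω → ℂ → ℂ} {w : Ω → (ℂ → ℂ) → ℂ} {Cw : ℝ}
    (h : SMD s0 Ω P η w Cw) (Φ : ℝ → ℝ) {K : ℕ} (x : Fin K → ℝ) (m : Fin K → ℤ) :
    Continuous (fun ω : Ω × ℝ => d11_tf x m (gg η ω Φ)) := by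
  unfold d11_tf
  have := fun k => d11_gg_cont hs0 h Φ (x k)
  fun_prop

/-- expectation of a test function -/
def d11_E {Ω : Type} [MeasurableSpace Ω] (P : Measure Ω) (η : Ω → ℂ → ℂ) {K : ℕ}
    (x : Fin K → ℝ) (m : Fin K → ℤ) (Φ : ℝ → ℝ) : ℂ := ∫ ω, d11_tf x m (gg η ω Φ) ∂(PP P)

/-- weighted expectation of a test function -/
def d11_A {Ω : Type} [MeasurableSpace Ω] (P : Measure Ω) (η : Ω → ℂ → ℂ)
    (w : Ω → (ℂ → ℂ) → ℂ) (ρ : ℝ) {K : ℕ}
    (x : Fin K → ℝ) (m : Fin K → ℤ) (Φ v : ℝ → ℝ) : ℂ :=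
  ∫ ω, d11_tf x m (gg η ω Φ) * ww w ω (pull ρ Φ v) ∂(PP P)

theorem d11_int1 {s0 : ℝ} (hs0 : 0 < s0) {Ω : Type} [TopologicalSpace Ω]
    [SecondCountableTopology Ω] [MeasurableSpace Ω] [BorelSpace Ω]
    {P : Measure Ω} [IsProbabilityMeasure P] {η : Ω → ℂ → ℂ} {w : Ω → (ℂ → ℂ) → ℂ} {Cw : ℝ}
    (h : SMD s0 Ω P η w Cw) (Φ : ℝ → ℝ) {K : ℕ} (x : Fin K → ℝ) (m : Fin K → ℤ)
    {g : Ω × ℝ → ℂ} (hg : Integrable g (PP P)) :
    Integrable (fun ω : Ω × ℝ => d11_tf x m (gg η ω Φ) * g ω) (PP P) := by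
  refine hg.bdd_mul (c := 1) ?_ ?_
  · exact (d11_tf_cont hs0 h Φ x m).aestronglyMeasurable
  · exact Filter.Eventually.of_forall fun ω => (d11_tf_norm x m _).le

theorem d11_A_bound {s0 : ℝ} {Ω : Type} [TopologicalSpace Ω]
    [SecondCountableTopology Ω] [MeasurableSpace Ω] [BorelSpace Ω]
    {P : Measure Ω} [IsProbabilityMeasure P] {η : Ω → ℂ → ℂ} {w : Ω → (ℂ → ℂ) → ℂ} {Cw : ℝ}
    (h : SMD s0 Ω P η w Cw) {ρ : ℝ} (Φ v : ℝ → ℝ) {K : ℕ} (x : Fin K → ℝ) (m : Fin K → ℤ)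
    (hκ : HB s0 (pull ρ Φ v)) {B : ℝ} (hB : ∀ z ∈ St s0, ‖pull ρ Φ v z‖ ≤ B) :
    ‖d11_A P η w ρ x m Φ v‖ ≤ Cw * B := by
  have h1 := d11_ww h hκ hB
  unfold d11_A
  refine (norm_integral_le_integral_norm _).trans ?_
  refine le_trans (le_of_eq ?_) h1.2
  refine integral_congr_ae (Filter.Eventually.of_forall fun ω => ?_)
  simp only [norm_mul, d11_tf_norm, one_mul]

/-! ## smoothed sums of products of test functions -/

/-- a finite sum of products of test functions -/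
def d11_S {K J : ℕ} (x : Fin K → ℝ) (a : Fin J → ℂ) (m : Fin J → ℕ → Fin K → ℤ) (p : ℕ)
    (y : Sq) : ℂ := ∑ i, a i * ∏ b : Fin (p + 1), d11_tf x (m i b) (y b)

/-- the integrand of `CJ` -/
theorem d11_CJ_eq {Ω : Type} (η : Ω → ℂ → ℂ)
    (w : Ω → (ℂ → ℂ) → ℂ) (ρ : ℝ) (p : ℕ) {K J : ℕ} (x : Fin K → ℝ) (a : Fin J → ℂ)
    (m : Fin J → ℕ → Fin K → ℤ) (j : ℕ) (y v : Sq) (ω : Fin (p + 1) → Ω × ℝ) :
    d11_S x a m p (fun k => if h : k < p + 1 then gg η (ω ⟨k, h⟩) (y k) else y k) *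
      ∏ b : Fin (p + 1), (if (b : ℕ) < j then ww w (ω b) (pull ρ (y b) (v b)) else 1)
      = ∑ i, a i * ∏ b : Fin (p + 1), (d11_tf x (m i b) (gg η (ω b) (y b)) *
        (if (b : ℕ) < j then ww w (ω b) (pull ρ (y b) (v b)) else 1)) := by
  unfold d11_S
  rw [Finset.sum_mul]
  refine Finset.sum_congr rfl fun i _ => ?_
  rw [mul_assoc, ← Finset.prod_mul_distrib]
  congr 1
  refine Finset.prod_congr rfl fun b _ => ?_
  have e : (fun k => if h : k < p + 1 then gg η (ω ⟨k, h⟩) (y k) else y k) (b : ℕ)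
      = gg η (ω b) (y b) := dif_pos b.2
  rw [e]

section ctx

variable {s0 : ℝ} {Ω : Type} [TopologicalSpace Ω]
    [SecondCountableTopology Ω] [MeasurableSpace Ω] [BorelSpace Ω]
    {P : Measure Ω} [IsProbabilityMeasure P] {η : Ω → ℂ → ℂ} {w : Ω → (ℂ → ℂ) → ℂ} {Cw : ℝ}

omit [SecondCountableTopology Ω] [BorelSpace Ω] in
theorem d11_wt_int (h : SMD s0 Ω P η w Cw) {ρ : ℝ} {p j : ℕ} {y v : Sq}
    (hκ : ∀ b, HB s0 (pull ρ (y b) (v b))) (b : Fin (p + 1)) :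
    Integrable (fun ω : Ω × ℝ =>
      (if (b : ℕ) < j then ww w ω (pull ρ (y b) (v b)) else (1 : ℂ))) (PP P) := by
  by_cases hb : (b : ℕ) < j
  · simp only [hb, if_true]
    obtain ⟨B, hB⟩ := (hκ b).bdd
    exact (d11_ww h (hκ b) hB).1
  · simp only [hb, if_false]
    exact integrable_const _

theorem d11_S_int (hs0 : 0 < s0) (h : SMD s0 Ω P η w Cw) {ρ : ℝ} {p j : ℕ} {y v : Sq}
    (hκ : ∀ b, HB s0 (pull ρ (y b) (v b))) {K J : ℕ} (x : Fin K → ℝ) (a : Fin J → ℂ)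
    (m : Fin J → ℕ → Fin K → ℤ) :
    Integrable (fun ω : Fin (p + 1) → Ω × ℝ =>
      d11_S x a m p (fun k => if h : k < p + 1 then gg η (ω ⟨k, h⟩) (y k) else y k) *
      ∏ b : Fin (p + 1), (if (b : ℕ) < j then ww w (ω b) (pull ρ (y b) (v b)) else 1))
      (Measure.pi fun _ => PP P) := by
  simp only [d11_CJ_eq]
  refine integrable_finsetSum _ fun i _ => Integrable.const_mul ?_ _
  exact Integrable.fintype_prod
    (f := fun (b : Fin (p + 1)) (ω : Ω × ℝ) => d11_tf x (m i b) (gg η ω (y b)) *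
      (if (b : ℕ) < j then ww w ω (pull ρ (y b) (v b)) else 1))
    (μ := fun _ => PP P) fun b => d11_int1 hs0 h (y b) x (m i b) (d11_wt_int h hκ b)

theorem d11_CJ_S (hs0 : 0 < s0) (h : SMD s0 Ω P η w Cw) {ρ : ℝ} {p j : ℕ} {y v : Sq}
    (hκ : ∀ b, HB s0 (pull ρ (y b) (v b))) {K J : ℕ} (x : Fin K → ℝ) (a : Fin J → ℂ)
    (m : Fin J → ℕ → Fin K → ℤ) :
    CJ P η w ρ p (d11_S x a m p) j y v = ∑ i, a i * ∏ b ∈ Finset.range (p + 1),
      (if b < j then d11_A P η w ρ x (m i b) (y b) (v b) else d11_E P η x (m i b) (y b)) := by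
  unfold CJ
  simp only [d11_CJ_eq]
  rw [integral_finsetSum]
  · refine Finset.sum_congr rfl fun i _ => ?_
    rw [integral_const_mul]
    congr 1
    rw [← Fin.prod_univ_eq_prod_range (fun b => if b < j then
      d11_A P η w ρ x (m i b) (y b) (v b) else d11_E P η x (m i b) (y b)) (p + 1)]
    rw [integral_fintype_prod_eq_prod (f := fun (b : Fin (p + 1)) (ω : Ω × ℝ) =>
      d11_tf x (m i b) (gg η ω (y b)) *
      (if (b : ℕ) < j then ww w ω (pull ρ (y b) (v b)) else 1)) (μ := fun _ => PP P)]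
    refine Finset.prod_congr rfl fun b _ => ?_
    by_cases hb : (b : ℕ) < j
    · simp only [hb, if_true]
      rfl
    · simp only [hb, if_false, mul_one]
      rfl
  · intro i _
    refine Integrable.const_mul ?_ _
    exact Integrable.fintype_prod
      (f := fun (b : Fin (p + 1)) (ω : Ω × ℝ) => d11_tf x (m i b) (gg η ω (y b)) *
        (if (b : ℕ) < j then ww w ω (pull ρ (y b) (v b)) else 1))
      (μ := fun _ => PP P) fun b => d11_int1 hs0 h (y b) x (m i b) (d11_wt_int h hκ b)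

theorem d11_diff (hs0 : 0 < s0) (h : SMD s0 Ω P η w Cw) {ρ : ℝ} {p j : ℕ} {y v : Sq}
    (hκ : ∀ b, HB s0 (pull ρ (y b) (v b))) {B : ℝ}
    (hB : ∀ b, ∀ z ∈ St s0, ‖pull ρ (y b) (v b) z‖ ≤ B)
    {K J : ℕ} (x : Fin K → ℝ) (a : Fin J → ℂ)
    (m : Fin J → ℕ → Fin K → ℤ) {C : Sq → ℂ} {ε : ℝ} (hε : 0 ≤ ε)
    (hC : Integrable (fun ω : Fin (p + 1) → Ω × ℝ =>
      C (fun k => if h : k < p + 1 then gg η (ω ⟨k, h⟩) (y k) else y k) *
      ∏ b : Fin (p + 1), (if (b : ℕ) < j then ww w (ω b) (pull ρ (y b) (v b)) else 1))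
      (Measure.pi fun _ => PP P))
    (hcl : ∀ ω : Fin (p + 1) → Ω × ℝ,
      ‖C (fun k => if h : k < p + 1 then gg η (ω ⟨k, h⟩) (y k) else y k)
        - d11_S x a m p (fun k => if h : k < p + 1 then gg η (ω ⟨k, h⟩) (y k) else y k)‖ ≤ ε) :
    ‖CJ P η w ρ p C j y v - CJ P η w ρ p (d11_S x a m p) j y v‖
      ≤ ε * (max 1 (Cw * B)) ^ (p + 1) := by
  unfold CJ
  rw [← integral_sub hC (d11_S_int hs0 h hκ x a m)]
  set g : Fin (p + 1) → Ω × ℝ → ℝ := fun b ω =>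
    ‖(if (b : ℕ) < j then ww w ω (pull ρ (y b) (v b)) else (1 : ℂ))‖ with hg
  have hgint : ∀ b, Integrable (g b) (PP P) := fun b => (d11_wt_int h hκ b).norm
  have hprod : Integrable (fun ω : Fin (p + 1) → Ω × ℝ => ε * ∏ b, g b (ω b))
      (Measure.pi fun _ => PP P) :=
    Integrable.const_mul (Integrable.fintype_prod (f := g) (μ := fun _ => PP P) hgint) _
  refine (norm_integral_le_of_norm_le hprod (Filter.Eventually.of_forall fun ω => ?_)).trans ?_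
  · rw [← sub_mul, norm_mul, norm_prod]
    exact mul_le_mul_of_nonneg_right (hcl ω) (Finset.prod_nonneg fun b _ => norm_nonneg _)
  · rw [integral_const_mul]
    refine mul_le_mul_of_nonneg_left ?_ hε
    rw [integral_fintype_prod_eq_prod (f := g) (μ := fun _ => PP P)]
    have hle : ∀ b, ∫ ω, g b ω ∂(PP P) ≤ max 1 (Cw * B) := by
      intro b
      simp only [hg]
      by_cases hb : (b : ℕ) < j
      · simp only [hb, if_true]
        exact ((d11_ww h (hκ b) (hB b)).2).trans (le_max_right _ _)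
      · simp only [hb, if_false, norm_one]
        rw [integral_const]
        simp
    calc ∏ b : Fin (p + 1), ∫ ω, g b ω ∂(PP P) ≤ ∏ _b : Fin (p + 1), max 1 (Cw * B) :=
          Finset.prod_le_prod (fun b _ => integral_nonneg fun ω => norm_nonneg _)
            fun b _ => hle b
      _ = (max 1 (Cw * B)) ^ (p + 1) := by simp

end ctx

/-- common form of `fF` and `gF` -/
def d11_G (c : ℕ → Sq → Sq → ℂ) (j q : ℕ) (y z : Sq) (u : Fin q → ℝ) : ℂ :=
  ∑ σ : Equiv.Perm (Fin q), ((Equiv.Perm.sign σ : ℤ) : ℂ) *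
    c q (Tp j (Phi q y u) z) (dirs y u σ)

theorem d11_Tp_le {j b : ℕ} (h : b ≤ j) (X : ℝ → ℝ) (z : Sq) : Tp j X z b = X := if_pos h

theorem d11_Tp_gt {j b : ℕ} (h : j < b) (X : ℝ → ℝ) (z : Sq) :
    Tp j X z b = z (b - (j + 1)) := if_neg (by omega)

/-- expansion for products of test functions -/
theorem d11_G_prod {Ω : Type} [MeasurableSpace Ω] {P : Measure Ω} {η : Ω → ℂ → ℂ}
    {w : Ω → (ℂ → ℂ) → ℂ} (ρ : ℝ) {j q p : ℕ} (hqj : q ≤ j + 1) (hqp : q ≤ p + 1) (y z : Sq)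
    (u : Fin q → ℝ) {K J : ℕ} (x : Fin K → ℝ) (a : Fin J → ℂ)
    (m : Fin J → ℕ → Fin K → ℤ) (c : ℕ → Sq → Sq → ℂ)
    (hc : ∀ σ : Equiv.Perm (Fin q), c q (Tp j (Phi q y u) z) (dirs y u σ)
      = ∑ i, a i * ∏ b ∈ Finset.range (p + 1),
        (if b < q then d11_A P η w ρ x (m i b) (Tp j (Phi q y u) z b) (dirs y u σ b)
          else d11_E P η x (m i b) (Tp j (Phi q y u) z b))) :
    d11_G c j q y z u = ∑ i, a i * (Matrix.det (Matrix.of fun a' b : Fin q =>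
      d11_A P η w ρ x (m i b) (Phi q y u) (dPhi q y a' u)) *
      ∏ b ∈ Finset.Ico q (p + 1), d11_E P η x (m i b) (Tp j (Phi q y u) z b)) := by
  unfold d11_G
  have e1 : ∀ σ : Equiv.Perm (Fin q), ((Equiv.Perm.sign σ : ℤ) : ℂ) *
      c q (Tp j (Phi q y u) z) (dirs y u σ)
      = ∑ i, a i * ((((Equiv.Perm.sign σ : ℤ) : ℂ) *
        ∏ b : Fin q, d11_A P η w ρ x (m i b) (Phi q y u) (dPhi q y (σ b) u)) *
        ∏ b ∈ Finset.Ico q (p + 1), d11_E P η x (m i b) (Tp j (Phi q y u) z b)) := by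
    intro σ
    rw [hc σ, Finset.mul_sum]
    refine Finset.sum_congr rfl fun i _ => ?_
    rw [← Finset.prod_range_mul_prod_Ico _ hqp]
    have e2 : ∏ b ∈ Finset.range q,
        (if b < q then d11_A P η w ρ x (m i b) (Tp j (Phi q y u) z b) (dirs y u σ b)
          else d11_E P η x (m i b) (Tp j (Phi q y u) z b))
        = ∏ b : Fin q, d11_A P η w ρ x (m i b) (Phi q y u) (dPhi q y (σ b) u) := by
      rw [Finset.prod_range]
      refine Finset.prod_congr rfl fun b _ => ?_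
      have hb := b.2
      rw [if_pos hb, d11_Tp_le (by omega)]
      have e3 : dirs y u σ (b : ℕ) = dPhi q y (σ b) u := dif_pos hb
      rw [e3]
    have e4 : ∏ b ∈ Finset.Ico q (p + 1),
        (if b < q then d11_A P η w ρ x (m i b) (Tp j (Phi q y u) z b) (dirs y u σ b)
          else d11_E P η x (m i b) (Tp j (Phi q y u) z b))
        = ∏ b ∈ Finset.Ico q (p + 1), d11_E P η x (m i b) (Tp j (Phi q y u) z b) := by
      refine Finset.prod_congr rfl fun b hb => ?_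
      rw [Finset.mem_Ico] at hb
      rw [if_neg (by omega)]
    rw [e2, e4]
    ring
  rw [Finset.sum_congr rfl fun σ _ => e1 σ, Finset.sum_comm]
  refine Finset.sum_congr rfl fun i _ => ?_
  rw [← Finset.mul_sum, ← Finset.sum_mul, Matrix.det_apply']
  rfl

/-! ## the abstract computation for products -/

/-- the differential form of a product -/
def d11_H (E : ℕ → (ℝ → ℝ) → ℂ) (j q p : ℕ) (y z : Sq) (u : Fin q → ℝ) : ℂ :=
  Matrix.det (Matrix.of fun a b : Fin q =>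
    fderiv ℝ (fun u => E (b : ℕ) (Phi q y u)) u (Pi.single a 1)) *
  ∏ b ∈ Finset.Ico q (p + 1), E b (Tp j (Phi q y u) z b)

/-- differentiability of the functions `E b` along simplices -/
structure d11_Dif (n : ℕ) (E : ℕ → (ℝ → ℝ) → ℂ) (A : ℕ → (ℝ → ℝ) → (ℝ → ℝ) → ℂ) : Prop where
  cd : ∀ (b q : ℕ) (y : Sq), (∀ k, y k ∈ AA n) → ContDiff ℝ 2 (fun u : Fin q → ℝ => E b (Phi q y u))
  dv : ∀ (b q : ℕ) (y : Sq), (∀ k, y k ∈ AA n) → ∀ u ∈ Set.Icc (0 : Fin q → ℝ) 1, ∀ a : Fin q,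
    HasDerivAt (fun t => E b (Phi q y (Function.update u a t)))
      (A b (Phi q y u) (dPhi q y a u)) (u a)
  zero : ∀ (b : ℕ), ∀ Φ ∈ AA n, A b Φ (fun _ => 0) = 0

theorem d11_fd {n : ℕ} {E : ℕ → (ℝ → ℝ) → ℂ} {A : ℕ → (ℝ → ℝ) → (ℝ → ℝ) → ℂ}
    (h : d11_Dif n E A) (b q : ℕ) {y : Sq} (hy : ∀ k, y k ∈ AA n) {u : Fin q → ℝ}
    (hu : u ∈ Set.Icc (0 : Fin q → ℝ) 1) (a : Fin q) :
    fderiv ℝ (fun u => E b (Phi q y u)) u (Pi.single a 1) = A b (Phi q y u) (dPhi q y a u) := by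
  have h1 : HasFDerivAt (fun u => E b (Phi q y u)) (fderiv ℝ (fun u => E b (Phi q y u)) u)
      (Function.update u a (u a)) := by
    rw [Function.update_eq_self]
    exact (((h.cd b q y hy).differentiable (by norm_num)) u).hasFDerivAt
  have h2 := h1.comp_hasDerivAt (u a) (hasDerivAt_update u a (u a))
  exact h2.unique (h.dv b q y hy u hu a)

theorem d11_ins {j : ℕ} (a : Fin (j + 1)) {u : Fin j → ℝ} (hu : u ∈ Set.Icc (0 : Fin j → ℝ) 1)
    {t : ℝ} (ht0 : 0 ≤ t) (ht1 : t ≤ 1) :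
    (a.insertNth t u : Fin (j + 1) → ℝ) ∈ Set.Icc (0 : Fin (j + 1) → ℝ) 1 := by
  constructor
  · intro i
    rcases Fin.eq_self_or_eq_succAbove a i with h | ⟨k, h⟩
    · rw [h, Fin.insertNth_apply_same]
      exact ht0
    · rw [h, Fin.insertNth_apply_succAbove]
      exact hu.1 k
  · intro i
    rcases Fin.eq_self_or_eq_succAbove a i with h | ⟨k, h⟩
    · rw [h, Fin.insertNth_apply_same]
      exact ht1
    · rw [h, Fin.insertNth_apply_succAbove]
      exact hu.2 k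

theorem d11_rm {n : ℕ} {y : Sq} (hy : ∀ k, y k ∈ AA n) (i : ℕ) : ∀ k, rm i y k ∈ AA n := by
  intro k
  unfold rm
  by_cases h : k < i
  · rw [if_pos h]; exact hy _
  · rw [if_neg h]; exact hy _

theorem d11_Hj (E : ℕ → (ℝ → ℝ) → ℂ) {j p : ℕ} (hj : j < p) (y z : Sq) (u : Fin j → ℝ) :
    d11_H E j j p y z u = E j (Phi j y u) * Matrix.det (Matrix.of fun a b : Fin j =>
      fderiv ℝ (fun u => E (b : ℕ) (Phi j y u)) u (Pi.single a 1)) *
      ∏ b ∈ Finset.Ico (j + 1) (p + 1), E b (z (b - (j + 1))) := by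
  unfold d11_H
  rw [Finset.prod_eq_prod_Ico_succ_bot (by omega), d11_Tp_le le_rfl]
  have e : ∏ b ∈ Finset.Ico (j + 1) (p + 1), E b (Tp j (Phi j y u) z b)
      = ∏ b ∈ Finset.Ico (j + 1) (p + 1), E b (z (b - (j + 1))) := by
    refine Finset.prod_congr rfl fun b hb => ?_
    rw [Finset.mem_Ico] at hb
    rw [d11_Tp_gt (by omega)]
  rw [e]
  ring

theorem d11_Hj1 (E : ℕ → (ℝ → ℝ) → ℂ) {j p : ℕ} (y z : Sq) (u : Fin (j + 1) → ℝ) :
    d11_H E j (j + 1) p y z u = Matrix.det (Matrix.of fun a b : Fin (j + 1) =>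
      fderiv ℝ (fun u => E (b : ℕ) (Phi (j + 1) y u)) u (Pi.single a 1)) *
      ∏ b ∈ Finset.Ico (j + 1) (p + 1), E b (z (b - (j + 1))) := by
  unfold d11_H
  congr 1
  refine Finset.prod_congr rfl fun b hb => ?_
  rw [Finset.mem_Ico] at hb
  rw [d11_Tp_gt (by omega)]

theorem d11_m3_single (h2 : ST_D2) (h9 : ST_D9) (h10 : ST_D10) {n : ℕ} (hn : 1 ≤ n)
    {E : ℕ → (ℝ → ℝ) → ℂ} {A : ℕ → (ℝ → ℝ) → (ℝ → ℝ) → ℂ}
    (h : d11_Dif n E A) {j p : ℕ} (hj : j < p) {y z : Sq} (hy : ∀ k, y k ∈ AA n) :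
    ∑ i ∈ Finset.range (j + 2), (-1 : ℂ) ^ i * cub j (d11_H E j j p (rm i y) z)
      = (-1 : ℂ) ^ j * cub (j + 1) (d11_H E j (j + 1) p y z) := by
  set R : ℂ := ∏ b ∈ Finset.Ico (j + 1) (p + 1), E b (z (b - (j + 1))) with hR
  have hPhi : ∀ u ∈ Set.Icc (0 : Fin (j + 1) → ℝ) 1, Phi (j + 1) y u ∈ AA n := fun u hu =>
    h2.2.2.2.2.2.2.1 n hn (j + 1) y hy u hu
  set F : Fin (j + 1) → (Fin (j + 1) → ℝ) → ℂ := fun b u => E (b : ℕ) (Phi (j + 1) y u) with hF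
  have hFc : ∀ b, ContDiff ℝ 2 (F b) := fun b => h.cd b (j + 1) y hy
  have hst := h9 j F hFc
  have hH1 : cub (j + 1) (d11_H E j (j + 1) p y z)
      = cub (j + 1) (fun u => Matrix.det (Matrix.of fun a b =>
        fderiv ℝ (F b) u (Pi.single a 1))) * R := by
    unfold cub
    rw [← integral_mul_const]
    refine integral_congr_ae (Filter.Eventually.of_forall fun u => ?_)
    exact d11_Hj1 E y z u
  set I1 : Fin (j + 1) → ℂ := fun a => cub j (fun u' => F (Fin.last j) (a.insertNth 1 u') *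
    Matrix.det (Matrix.of fun (c b : Fin j) =>
      fderiv ℝ (F b.castSucc) (a.insertNth 1 u') (Pi.single (a.succAbove c) 1))) with hI1
  set I0 : Fin (j + 1) → ℂ := fun a => cub j (fun u' => F (Fin.last j) (a.insertNth 0 u') *
    Matrix.det (Matrix.of fun (c b : Fin j) =>
      fderiv ℝ (F b.castSucc) (a.insertNth 0 u') (Pi.single (a.succAbove c) 1))) with hI0
  have hface : ∀ (a : Fin (j + 1)) (t : ℝ) (i : ℕ), 0 ≤ t → t ≤ 1 →
      (∀ u' : Fin j → ℝ, Phi (j + 1) y (a.insertNth t u') = Phi j (rm i y) u') →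
      (∀ (u' : Fin j → ℝ) (c : Fin j),
        dPhi (j + 1) y (a.succAbove c) (a.insertNth t u') = dPhi j (rm i y) c u') →
      cub j (fun u' => F (Fin.last j) (a.insertNth t u') *
        Matrix.det (Matrix.of fun (c b : Fin j) =>
          fderiv ℝ (F b.castSucc) (a.insertNth t u') (Pi.single (a.succAbove c) 1))) * R
        = cub j (d11_H E j j p (rm i y) z) := by
    intro a t i ht0 ht1 hp hd
    unfold cub
    rw [← integral_mul_const]
    refine setIntegral_congr_fun measurableSet_Icc fun u' hu' => ?_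
    rw [d11_Hj E hj (rm i y) z u']
    have e1 : F (Fin.last j) (a.insertNth t u') = E j (Phi j (rm i y) u') := by
      simp only [hF, Fin.val_last]
      rw [hp u']
    have e2 : (Matrix.of fun (c b : Fin j) =>
          fderiv ℝ (F b.castSucc) (a.insertNth t u') (Pi.single (a.succAbove c) 1))
        = Matrix.of fun a b : Fin j =>
          fderiv ℝ (fun u => E (b : ℕ) (Phi j (rm i y) u)) u' (Pi.single a 1) := by
      ext c b
      simp only [Matrix.of_apply]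
      rw [d11_fd h (b : ℕ) j (d11_rm hy i) hu' c]
      have e3 := d11_fd h (b : ℕ) (j + 1) hy (d11_ins a hu' ht0 ht1) (a.succAbove c)
      rw [hp u', hd u' c] at e3
      exact e3
    rw [e1, e2]
  have hI1R : ∀ a, I1 a * R = cub j (d11_H E j j p (rm a y) z) := fun a =>
    hface a 1 a zero_le_one le_rfl (fun u' => (h10 j y u').1 a)
      (fun u' c => (h10 j y u').2.2.2.1 a c)
  have hI0R : ∀ a, I0 a * R = if a = Fin.last j then cub j (d11_H E j j p (rm (j + 1) y) z)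
      else 0 := by
    intro a
    by_cases ha : a = Fin.last j
    · rw [if_pos ha]
      subst ha
      exact hface (Fin.last j) 0 (j + 1) le_rfl zero_le_one (fun u' => (h10 j y u').2.1)
        (fun u' c => (h10 j y u').2.2.2.2 c)
    · rw [if_neg ha]
      have halt : (a : ℕ) < j := by
        have h1 := a.2
        have h3 : (a : ℕ) ≠ j := fun h4 => ha (Fin.ext (by simpa using h4))
        omega
      have hz : I0 a = 0 := by
        simp only [hI0]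
        unfold cub
        rw [show (0 : ℂ) = ∫ u' in Set.Icc (0 : Fin j → ℝ) 1, (0 : ℂ) by simp]
        refine setIntegral_congr_fun measurableSet_Icc fun u' hu' => ?_
        have hdet : Matrix.det (Matrix.of fun (c b : Fin j) =>
            fderiv ℝ (F b.castSucc) (a.insertNth 0 u') (Pi.single (a.succAbove c) 1)) = 0 := by
          refine Matrix.det_eq_zero_of_row_eq_zero (⟨j - 1, by omega⟩ : Fin j) fun b => ?_
          simp only [Matrix.of_apply]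
          have hlt : a < a.succAbove (⟨j - 1, by omega⟩ : Fin j) := by
            rw [Fin.succAbove_of_le_castSucc]
            · rw [Fin.lt_def]
              simp only [Fin.val_succ]
              omega
            · rw [Fin.le_def]
              simp only [Fin.val_castSucc]
              omega
          have e3 := d11_fd h (b : ℕ) (j + 1) hy (d11_ins a hu' le_rfl zero_le_one)
            (a.succAbove (⟨j - 1, by omega⟩ : Fin j))
          rw [(h10 j y u').2.2.1 a _ hlt] at e3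
          rw [h.zero _ _ (hPhi _ (d11_ins a hu' le_rfl zero_le_one))] at e3
          exact e3
        simp only [hdet, mul_zero]
      rw [hz, zero_mul]
  have hsgn : (-1 : ℂ) ^ j * (-1 : ℂ) ^ j = 1 := by
    rw [← mul_pow]
    simp
  rw [hH1, hst]
  have e5 : (-1 : ℂ) ^ j * ((-1 : ℂ) ^ j * ∑ a : Fin (j + 1), (-1 : ℂ) ^ (a : ℕ) *
      (I1 a - I0 a) * R) = ∑ a : Fin (j + 1), (-1 : ℂ) ^ (a : ℕ) * (I1 a * R)
        - ∑ a : Fin (j + 1), (-1 : ℂ) ^ (a : ℕ) * (I0 a * R) := by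
    rw [← mul_assoc, hsgn, one_mul, ← Finset.sum_sub_distrib]
    refine Finset.sum_congr rfl fun a _ => ?_
    ring
  have e6 : (-1 : ℂ) ^ j * ((-1 : ℂ) ^ j * ∑ a : Fin (j + 1), (-1 : ℂ) ^ (a : ℕ) *
      (I1 a - I0 a)) * R = (-1 : ℂ) ^ j * ((-1 : ℂ) ^ j * ∑ a : Fin (j + 1),
        (-1 : ℂ) ^ (a : ℕ) * (I1 a - I0 a) * R) := by
    rw [mul_assoc, mul_assoc, Finset.sum_mul]
  have e7 : ∑ a : Fin (j + 1), (-1 : ℂ) ^ (a : ℕ) * (I1 a * R)
      = ∑ i ∈ Finset.range (j + 1), (-1 : ℂ) ^ i * cub j (d11_H E j j p (rm i y) z) := by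
    rw [Finset.sum_range]
    refine Finset.sum_congr rfl fun a _ => ?_
    rw [hI1R]
  have e8 : ∑ a : Fin (j + 1), (-1 : ℂ) ^ (a : ℕ) * (I0 a * R)
      = (-1 : ℂ) ^ j * cub j (d11_H E j j p (rm (j + 1) y) z) := by
    rw [Finset.sum_eq_single (Fin.last j)]
    · rw [hI0R, if_pos rfl, Fin.val_last]
    · intro a _ ha
      rw [hI0R, if_neg ha, mul_zero]
    · intro hne
      exact absurd (Finset.mem_univ _) hne
  rw [Finset.sum_range_succ]
  calc _ = ∑ i ∈ Finset.range (j + 1), (-1 : ℂ) ^ i * cub j (d11_H E j j p (rm i y) z)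
        - (-1 : ℂ) ^ j * cub j (d11_H E j j p (rm (j + 1) y) z) := by ring
    _ = (-1 : ℂ) ^ j * ((-1 : ℂ) ^ j * ∑ a : Fin (j + 1), (-1 : ℂ) ^ (a : ℕ) *
      (I1 a - I0 a)) * R := by rw [e6, e5, e7, e8]
    _ = _ := by ring

/-! ## continuity -/

theorem d11_H_cont {n : ℕ} {E : ℕ → (ℝ → ℝ) → ℂ} {A : ℕ → (ℝ → ℝ) → (ℝ → ℝ) → ℂ}
    (h : d11_Dif n E A) (j q p : ℕ) {y : Sq} (z : Sq) (hy : ∀ k, y k ∈ AA n) :
    Continuous (d11_H E j q p y z) := by
  unfold d11_H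
  refine Continuous.mul ?_ ?_
  · refine Continuous.matrix_det ?_
    refine continuous_matrix fun a b => ?_
    exact ((h.cd (b : ℕ) q y hy).continuous_fderiv (by norm_num)).clm_apply continuous_const
  · refine continuous_finsetProd _ fun b _ => ?_
    by_cases hb : b ≤ j
    · simp only [d11_Tp_le hb]
      exact (h.cd b q y hy).continuous
    · have hb' : j < b := by omega
      simp only [d11_Tp_gt hb']
      exact continuous_const

theorem d11_cub_vol (q : ℕ) : (volume (Set.Icc (0 : Fin q → ℝ) 1)) = 1 := by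
  rw [Real.volume_Icc_pi]
  simp

theorem d11_cub_int {q : ℕ} {f : (Fin q → ℝ) → ℂ} (hf : ContinuousOn f (Set.Icc 0 1)) :
    IntegrableOn f (Set.Icc (0 : Fin q → ℝ) 1) :=
  hf.integrableOn_compact isCompact_Icc

theorem d11_cub_sub {q : ℕ} {f g : (Fin q → ℝ) → ℂ}
    (hf : ContinuousOn f (Set.Icc (0 : Fin q → ℝ) 1))
    (hg : ContinuousOn g (Set.Icc (0 : Fin q → ℝ) 1)) {δ : ℝ}
    (h : ∀ u ∈ Set.Icc (0 : Fin q → ℝ) 1, ‖f u - g u‖ ≤ δ) : ‖cub q f - cub q g‖ ≤ δ := by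
  unfold cub
  rw [← integral_sub (d11_cub_int hf) (d11_cub_int hg)]
  have h1 := norm_setIntegral_le_of_norm_le_const (μ := volume)
    (s := Set.Icc (0 : Fin q → ℝ) 1) (f := fun u => f u - g u) (C := δ)
    (by rw [d11_cub_vol]; exact ENNReal.one_lt_top) h
  rw [Measure.real, d11_cub_vol] at h1
  simpa using h1

theorem d11_four_zero (z : ℂ) : four (fun _ => (0 : ℝ)) z = 0 := by
  unfold four fco
  simp

theorem d11_dirs (h2 : ST_D2) {n : ℕ} (hn : 1 ≤ n) (q : ℕ) {y : Sq} (hy : ∀ k, y k ∈ AA n) :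
    ∃ K : ℝ, 0 ≤ K ∧ ∀ u ∈ Set.Icc (0 : Fin q → ℝ) 1, ∀ (σ : Fin q → Fin q) (b : ℕ),
      dirs y u σ b ∈ VV n K := by
  obtain ⟨K, hK⟩ := h2.2.2.2.2.2.2.2 n hn q y hy
  have hz : ∀ L : ℝ, 0 ≤ L → (0 : ℝ → ℝ) ∈ VV n L := by
    intro L hL
    refine ⟨⟨y 0, hy 0, y 0, hy 0, ?_⟩, ?_⟩
    · funext t
      simp
    · intro t
      simpa using hL
  rcases Nat.eq_zero_or_pos q with hq | hq
  · refine ⟨0, le_rfl, fun u _ σ b => ?_⟩
    unfold dirs
    rw [dif_neg (by omega)]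
    exact hz 0 le_rfl
  · have hK0 : 0 ≤ K := by
      have h1 := (hK 0 ⟨le_rfl, zero_le_one⟩ ⟨0, hq⟩).2 0
      exact le_trans (abs_nonneg _) h1
    refine ⟨K, hK0, fun u hu σ b => ?_⟩
    unfold dirs
    by_cases hb : b < q
    · rw [dif_pos hb]
      exact hK u hu _
    · rw [dif_neg hb]
      exact hz K hK0

section fin

variable {n n' p : ℕ} {ρ s M s0 : ℝ} {Ω : Type} [TopologicalSpace Ω] [CompactSpace Ω] [T2Space Ω]
  [SecondCountableTopology Ω] [MeasurableSpace Ω] [BorelSpace Ω] {P : Measure Ω}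
  [IsProbabilityMeasure P] {η : Ω → ℂ → ℂ} {w : Ω → (ℂ → ℂ) → ℂ} {Cw : ℝ}

theorem d11_dif (h6 : ST_D6) (hX : Ctx n n' ρ s M s0 Ω P η w Cw) {K : ℕ} (x : Fin K → ℝ)
    (m : ℕ → Fin K → ℤ) :
    d11_Dif n (fun b Φ => d11_E P η x (m b) Φ) (fun b Φ v => d11_A P η w ρ x (m b) Φ v) where
  cd b q y hy := (h6 n n' ρ s M s0 Ω P η w Cw hX K x (m b) q y hy).1
  dv b q y hy u hu a := (h6 n n' ρ s M s0 Ω P η w Cw hX K x (m b) q y hy).2 u hu a
  zero b Φ _ := by
    have hκ : pull ρ Φ (fun _ => 0) = fun _ => 0 := by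
      funext z
      unfold pull
      exact d11_four_zero _
    have h1 : HB s0 (pull ρ Φ (fun _ => 0)) := by
      rw [hκ]
      exact ⟨differentiableOn_const _, fun _ _ => rfl, ⟨0, fun _ _ => by simp⟩⟩
    have h2 := d11_A_bound hX.smd Φ (fun _ => 0) x (m b) h1 (B := 0)
      (fun z _ => by rw [hκ]; simp)
    rw [mul_zero] at h2
    exact norm_le_zero_iff.mp h2

theorem d11_Tp_mem {j : ℕ} {X : ℝ → ℝ} {z : Sq} (hX : X ∈ AA n) (hz : ∀ k, z k ∈ AA n) :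
    ∀ b, Tp j X z b ∈ AA n := by
  intro b
  by_cases hb : b ≤ j
  · rw [d11_Tp_le hb]; exact hX
  · rw [d11_Tp_gt (by omega)]; exact hz _

/-- values on the cube of the forms attached to sums of products of test functions -/
theorem d11_G_S (h2 : ST_D2) (h6 : ST_D6) (hX : Ctx n n' ρ s M s0 Ω P η w Cw) {j q : ℕ}
    (hqj : q ≤ j + 1) (hqp : q ≤ p) {y z : Sq} (hy : ∀ k, y k ∈ AA n) (hz : ∀ k, z k ∈ AA n)
    {K J : ℕ} (x : Fin K → ℝ) (a : Fin J → ℂ) (m : Fin J → ℕ → Fin K → ℤ)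
    {u : Fin q → ℝ} (hu : u ∈ Set.Icc (0 : Fin q → ℝ) 1) :
    d11_G (CJ P η w ρ p (d11_S x a m p)) j q y z u
      = ∑ i, a i * d11_H (fun b Φ => d11_E P η x (m i b) Φ) j q p y z u := by
  have hn : 1 ≤ n := hX.good.1
  obtain ⟨L, hL0, hL⟩ := d11_dirs h2 hn q hy
  have hPhi : Phi q y u ∈ AA n := h2.2.2.2.2.2.2.1 n hn q y hy u hu
  rw [d11_G_prod (P := P) (η := η) (w := w) (p := p) ρ hqj (by omega) y z u x a m]
  · refine Finset.sum_congr rfl fun i _ => ?_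
    congr 1
    unfold d11_H
    congr 2
    ext a' b
    simp only [Matrix.of_apply]
    exact (d11_fd (d11_dif h6 hX x (m i)) (b : ℕ) q hy hu a').symm
  · intro σ
    exact d11_CJ_S hX.s0pos hX.smd (fun b =>
      (d11_pull_hb hX.inv hX.s0lt (d11_Tp_mem (j := j) hPhi hz b) (hL u hu σ b)).1) x a m

theorem d11_close (h2 : ST_D2) (h5 : ST_D5) (hX : Ctx n n' ρ s M s0 Ω P η w Cw)
    {C : Sq → ℂ} (hC : LC n' p C) {j q : ℕ}
    (hqp : q ≤ p) {y z : Sq} (hy : ∀ k, y k ∈ AA n) (hz : ∀ k, z k ∈ AA n) :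
    ∃ L : ℝ, 0 ≤ L ∧ ∀ (ε : ℝ) (K J : ℕ) (x : Fin K → ℝ) (a : Fin J → ℂ)
      (m : Fin J → ℕ → Fin K → ℤ), 0 ≤ ε →
      (∀ y' : Sq, (∀ k, y' k ∈ AA n') → ‖C y' - d11_S x a m p y'‖ ≤ ε) →
      ∀ u ∈ Set.Icc (0 : Fin q → ℝ) 1,
      ‖d11_G (CJ P η w ρ p C) j q y z u - d11_G (CJ P η w ρ p (d11_S x a m p)) j q y z u‖
        ≤ L * ε := by
  have hn : 1 ≤ n := hX.good.1
  obtain ⟨K0, hK0, hK⟩ := d11_dirs h2 hn q hy
  refine ⟨(Fintype.card (Equiv.Perm (Fin q)) : ℝ) * (max 1 (Cw * (M * K0))) ^ (p + 1),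
    by positivity, ?_⟩
  intro ε K J x a m hε hcl u hu
  have hPhi : Phi q y u ∈ AA n := h2.2.2.2.2.2.2.1 n hn q y hy u hu
  unfold d11_G
  rw [← Finset.sum_sub_distrib]
  have hterm : ∀ σ : Equiv.Perm (Fin q),
      ‖((Equiv.Perm.sign σ : ℤ) : ℂ) * CJ P η w ρ p C q (Tp j (Phi q y u) z) (dirs y u σ)
        - ((Equiv.Perm.sign σ : ℤ) : ℂ) *
          CJ P η w ρ p (d11_S x a m p) q (Tp j (Phi q y u) z) (dirs y u σ)‖
        ≤ ε * (max 1 (Cw * (M * K0))) ^ (p + 1) := by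
    intro σ
    rw [← mul_sub, norm_mul]
    have hs1 : ‖((Equiv.Perm.sign σ : ℤ) : ℂ)‖ = 1 := by
      rcases Int.units_eq_one_or (Equiv.Perm.sign σ) with h | h
      · rw [h]; simp
      · rw [h]; simp
    rw [hs1, one_mul]
    have hTp := d11_Tp_mem (j := j) hPhi hz
    refine d11_diff hX.s0pos hX.smd
      (fun b => (d11_pull_hb hX.inv hX.s0lt (hTp b) (hK u hu σ b)).1)
      (fun b => (d11_pull_hb hX.inv hX.s0lt (hTp b) (hK u hu σ b)).2) x a m hε ?_ ?_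
    · exact (h5 n n' p ρ s M s0 Ω P η w Cw hX C hC).1 q hqp _ _ K0 hTp
        (fun b => hK u hu σ b)
    · intro ω
      apply hcl
      intro k
      by_cases hk : k < p + 1
      · simp only [hk, dif_pos]
        exact hX.good.2.2 (η (ω ⟨k, hk⟩).1) (hX.smd.adm _) _ (hTp k) _
      · simp only [hk, dif_neg, not_false_iff]
        exact h2.1 n n' hn hX.good.2.1 (hTp k)
  refine (norm_sum_le _ _).trans ((Finset.sum_le_sum fun σ _ => hterm σ).trans ?_)
  rw [Finset.sum_const, nsmul_eq_mul, Finset.card_univ]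
  exact le_of_eq (by ring)

/-- density in the extended form -/
theorem d11_density (h8 : ST_D8) {n' p : ℕ} (hn' : 1 ≤ n') {C : Sq → ℂ} (hC : LC n' p C) {ε : ℝ}
    (hε : 0 < ε) : ∃ (K J : ℕ) (x : Fin K → ℝ) (a : Fin J → ℂ) (m : Fin J → ℕ → Fin K → ℤ),
      ∀ y' : Sq, (∀ k, y' k ∈ AA n') → ‖C y' - d11_S x a m p y'‖ ≤ ε := by
  obtain ⟨J, K, a, m, x, h⟩ := h8 n' p hn' C hC ε hε
  refine ⟨K, J, x, a, fun i b => if hb : b < p + 1 then m i ⟨b, hb⟩ else 0, fun y' hy' => ?_⟩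
  refine le_trans (le_of_eq ?_) (h y' hy')
  congr 2
  unfold d11_S
  refine Finset.sum_congr rfl fun i _ => ?_
  congr 1
  refine Finset.prod_congr rfl fun b _ => ?_
  unfold d11_tf
  simp only [b.2, dif_pos, Fin.eta]

end fin

/-- D11 -/
theorem st_D11 (h2 : ST_D2) (h5 : ST_D5) (h6 : ST_D6) (h8 : ST_D8) (h9 : ST_D9)
    (h10 : ST_D10) : ST_D11 := by
  intro n n' p ρ s M s0 Ω _ _ _ _ _ _ P _ η w Cw hX C hC j hj y z hy hz
  have hn : 1 ≤ n := hX.good.1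
  have hn' : 1 ≤ n' := le_trans hn hX.good.2.1
  -- uniform approximation
  have hG : ∀ (q : ℕ), q ≤ j + 1 → ∀ y0 : Sq, (∀ k, y0 k ∈ AA n) →
      ContinuousOn (d11_G (CJ P η w ρ p C) j q y0 z) (Set.Icc (0 : Fin q → ℝ) 1) := by
    intro q hq y0 hy0
    obtain ⟨L, hL0, hL⟩ := d11_close (j := j) h2 h5 hX hC (by omega : q ≤ p) hy0 hz
    refine continuousOn_of_uniform_approx_of_continuousOn fun U hU => ?_
    obtain ⟨ε, hε, hεU⟩ := Metric.mem_uniformity_dist.mp hU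
    obtain ⟨K, J, x, a, m, hcl⟩ := d11_density h8 hn' hC (div_pos hε (by positivity : 0 < L + 1))
    refine ⟨fun u => ∑ i, a i * d11_H (fun b Φ => d11_E P η x (m i b) Φ) j q p y0 z u, ?_, ?_⟩
    · refine Continuous.continuousOn ?_
      refine continuous_finsetSum _ fun i _ => ?_
      exact continuous_const.mul (d11_H_cont (d11_dif h6 hX x (m i)) j q p z hy0)
    · intro u hu
      apply hεU
      rw [dist_eq_norm]
      have h1 := hL _ K J x a m (div_pos hε (by positivity : 0 < L + 1)).le hcl u hu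
      rw [d11_G_S h2 h6 hX hq (by omega) hy0 hz x a m hu] at h1
      refine lt_of_le_of_lt h1 ?_
      rw [mul_div_assoc', div_lt_iff₀ (by positivity)]
      nlinarith
  set DD : ℂ := ∑ i ∈ Finset.range (j + 2), (-1 : ℂ) ^ i *
      cub j (fF (CJ P η w ρ p C) j (rm i y) z)
      - (-1 : ℂ) ^ j * cub (j + 1) (gF (CJ P η w ρ p C) j y z) with hDD
  have hch : ∀ i : ℕ, ∃ L : ℝ, 0 ≤ L ∧ ∀ (ε : ℝ) (K J : ℕ) (x : Fin K → ℝ) (a : Fin J → ℂ)
      (m : Fin J → ℕ → Fin K → ℤ), 0 ≤ ε →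
      (∀ y' : Sq, (∀ k, y' k ∈ AA n') → ‖C y' - d11_S x a m p y'‖ ≤ ε) →
      ∀ u ∈ Set.Icc (0 : Fin j → ℝ) 1,
      ‖d11_G (CJ P η w ρ p C) j j (rm i y) z u
        - d11_G (CJ P η w ρ p (d11_S x a m p)) j j (rm i y) z u‖ ≤ L * ε := fun i =>
    d11_close h2 h5 hX hC (by omega) (d11_rm hy i) hz
  choose Li hLi0 hLi using hch
  obtain ⟨L', hL'0, hL'⟩ := d11_close (j := j) (q := j + 1) h2 h5 hX hC (by omega) hy hz
  set T : ℝ := ∑ i ∈ Finset.range (j + 2), Li i + L' with hT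
  have hT0 : 0 ≤ T := add_nonneg (Finset.sum_nonneg fun i _ => hLi0 i) hL'0
  have hbound : ∀ ε : ℝ, 0 < ε → ‖DD‖ ≤ T * ε := by
    intro ε hε
    obtain ⟨K, J, x, a, m, hcl⟩ := d11_density h8 hn' hC hε
    -- the values for the approximation
    have hcub : ∀ (q : ℕ), q ≤ j + 1 → ∀ y0 : Sq, (∀ k, y0 k ∈ AA n) →
        cub q (d11_G (CJ P η w ρ p (d11_S x a m p)) j q y0 z)
          = ∑ i, a i * cub q (d11_H (fun b Φ => d11_E P η x (m i b) Φ) j q p y0 z) := by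
      intro q hq y0 hy0
      unfold cub
      rw [setIntegral_congr_fun measurableSet_Icc (fun u hu =>
        d11_G_S h2 h6 hX hq (by omega) hy0 hz x a m hu)]
      rw [integral_finsetSum]
      · refine Finset.sum_congr rfl fun i _ => ?_
        rw [integral_const_mul]
      · intro i _
        exact (d11_cub_int (continuous_const.mul
          (d11_H_cont (d11_dif h6 hX x (m i)) j q p z hy0)).continuousOn)
    have hcont : ∀ (q : ℕ), q ≤ j + 1 → ∀ y0 : Sq, (∀ k, y0 k ∈ AA n) →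
        ContinuousOn (d11_G (CJ P η w ρ p (d11_S x a m p)) j q y0 z)
          (Set.Icc (0 : Fin q → ℝ) 1) := by
      intro q hq y0 hy0
      refine ContinuousOn.congr (f := fun u => ∑ i, a i *
        d11_H (fun b Φ => d11_E P η x (m i b) Φ) j q p y0 z u) ?_ ?_
      · refine Continuous.continuousOn ?_
        refine continuous_finsetSum _ fun i _ => ?_
        exact continuous_const.mul (d11_H_cont (d11_dif h6 hX x (m i)) j q p z hy0)
      · intro u hu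
        exact d11_G_S h2 h6 hX hq (by omega) hy0 hz x a m hu
    have hS : ∑ i ∈ Finset.range (j + 2), (-1 : ℂ) ^ i *
        cub j (d11_G (CJ P η w ρ p (d11_S x a m p)) j j (rm i y) z)
        = (-1 : ℂ) ^ j * cub (j + 1) (d11_G (CJ P η w ρ p (d11_S x a m p)) j (j + 1) y z) := by
      rw [hcub (j + 1) le_rfl y hy, Finset.mul_sum]
      have e1 : ∀ i ∈ Finset.range (j + 2), (-1 : ℂ) ^ i *
          cub j (d11_G (CJ P η w ρ p (d11_S x a m p)) j j (rm i y) z)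
          = ∑ i', a i' * ((-1 : ℂ) ^ i *
            cub j (d11_H (fun b Φ => d11_E P η x (m i' b) Φ) j j p (rm i y) z)) := by
        intro i _
        rw [hcub j (by omega) (rm i y) (d11_rm hy i), Finset.mul_sum]
        refine Finset.sum_congr rfl fun i' _ => ?_
        ring
      rw [Finset.sum_congr rfl e1, Finset.sum_comm]
      refine Finset.sum_congr rfl fun i' _ => ?_
      rw [← Finset.mul_sum, d11_m3_single h2 h9 h10 hn (d11_dif h6 hX x (m i')) hj hy]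
      ring
    have e2 : DD = ∑ i ∈ Finset.range (j + 2), (-1 : ℂ) ^ i *
        (cub j (d11_G (CJ P η w ρ p C) j j (rm i y) z)
          - cub j (d11_G (CJ P η w ρ p (d11_S x a m p)) j j (rm i y) z))
        - (-1 : ℂ) ^ j * (cub (j + 1) (d11_G (CJ P η w ρ p C) j (j + 1) y z)
          - cub (j + 1) (d11_G (CJ P η w ρ p (d11_S x a m p)) j (j + 1) y z)) := by
      have e3 : ∑ i ∈ Finset.range (j + 2), (-1 : ℂ) ^ i *
        (cub j (d11_G (CJ P η w ρ p C) j j (rm i y) z)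
          - cub j (d11_G (CJ P η w ρ p (d11_S x a m p)) j j (rm i y) z))
          = ∑ i ∈ Finset.range (j + 2), (-1 : ℂ) ^ i *
            cub j (d11_G (CJ P η w ρ p C) j j (rm i y) z)
          - ∑ i ∈ Finset.range (j + 2), (-1 : ℂ) ^ i *
            cub j (d11_G (CJ P η w ρ p (d11_S x a m p)) j j (rm i y) z) := by
        rw [← Finset.sum_sub_distrib]
        refine Finset.sum_congr rfl fun i _ => ?_
        ring
      rw [e3, hS, mul_sub]
      have e4 : DD = ∑ i ∈ Finset.range (j + 2), (-1 : ℂ) ^ i *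
            cub j (d11_G (CJ P η w ρ p C) j j (rm i y) z)
          - (-1 : ℂ) ^ j * cub (j + 1) (d11_G (CJ P η w ρ p C) j (j + 1) y z) := rfl
      rw [e4]
      ring
    rw [e2]
    have hpow : ∀ i : ℕ, ‖(-1 : ℂ) ^ i‖ = 1 := fun i => by simp
    refine (norm_sub_le _ _).trans ?_
    rw [hT, add_mul, Finset.sum_mul]
    refine add_le_add ?_ ?_
    · refine (norm_sum_le _ _).trans (Finset.sum_le_sum fun i _ => ?_)
      rw [norm_mul, hpow, one_mul]
      exact d11_cub_sub (hG j (by omega) (rm i y) (d11_rm hy i))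
        (hcont j (by omega) (rm i y) (d11_rm hy i)) (hLi i ε K J x a m hε.le hcl)
    · rw [norm_mul, hpow, one_mul]
      exact d11_cub_sub (hG (j + 1) le_rfl y hy) (hcont (j + 1) le_rfl y hy)
        (hL' ε K J x a m hε.le hcl)
  have hzero : ‖DD‖ ≤ 0 := by
    refine le_of_forall_pos_le_add fun δ hδ => ?_
    have h1 := hbound (δ / (T + 1)) (div_pos hδ (by positivity))
    refine h1.trans ?_
    rw [zero_add, mul_div_assoc', div_le_iff₀ (by positivity)]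
    nlinarith
  have hD0 : DD = 0 := norm_le_zero_iff.mp hzero
  rw [hDD] at hD0
  exact sub_eq_zero.mp hD0

end

end Pool.Agent.Helper67.DO
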